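import Mathlib
import Pool.Agent.TH33.WGL.Ctbl

/-!
# MP_d6aa4f_al: power series rings of weak global dimension one

For (products of) rings without uncountable direct sums of nonzero right, or of nonzero left,
ideals, the power series ring has weak global dimension one exactly when the ring is von Neumann
regular and all of its matrix rings are Baer rings.  Countable rings, and algebras of countable
dimension over a field, have no uncountable direct sums of nonzero right ideals.
-/

set_option autoImplicit false

namespace Pool.Agent.Results.MP_d6aa4f_al.CountableSums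

open PowerSeries Pool.Agent.TH33.WGL

universe u v

theorem result (A : Type u) [Ring A] [Nontrivial A] (I : Type v) (B : I → Type u)
    [∀ i, Ring (B i)] (e : A ≃+* (∀ i, B i)) (hB : ∀ i, RightCCC (B i) ∨ LeftCCC (B i)) :
    WGlDimEqOne A⟦X⟧ ↔
      IsRegularRing A ∧ ∀ n : ℕ, IsBaerRing (Matrix (Fin n) (Fin n) A) := by
  constructor
  · rintro ⟨h, -⟩
    have hPF := PF_of_WGlDimLE h
    have hreg := regular_of_PF hPF
    exact ⟨hreg, fun n => isBaer_of_BaerRow n
      (BaerRow_pi B e hreg (countSep_of_PF hPF) hB (Fin n))⟩
  · rintro ⟨hreg, hbaer⟩
    refine ⟨WGlDimLE_of_PF (PF_of_BaerRow hreg fun l _ _ => BaerRow_of_isBaer hbaer l), ?_⟩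
    refine not_WGlDimLE_zero X ?_ ?_
    · intro a ha
      ext n
      have := congrArg (coeff (n + 1)) ha
      rw [X_mul, coeff_succ_mul_X] at this
      simpa using this
    · intro a ha
      have := congrArg (coeff 0) ha
      simp at this

end Pool.Agent.Results.MP_d6aa4f_al.CountableSums
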